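import Pool.Agent.Helper4.S7.StD2

/-!
# Project W7, module Cnt: counting the index sets
-/

set_option autoImplicit false

namespace Pool.Agent.Helper36.S7

open Pool.Agent.Helper4.S7 Pool.Agent.Helper84.S7 Pool.Agent.Helper52.S7 Pool.Agent.Helper76.S7

/-- Counting the numbers below `c`. -/
private theorem inner (A c : ℕ) (h : c ≤ A) :
    (∑ i ∈ Finset.range A, if i < c then 1 else 0) = c := by
  rw [← Finset.sum_filter, Finset.sum_const, smul_eq_mul, mul_one]
  have : (Finset.range A).filter (fun i => i < c) = Finset.range c := by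
    ext i
    simp only [Finset.mem_filter, Finset.mem_range]
    omega
  rw [this, Finset.card_range]

/-- Gauss. -/
private theorem gauss (M : ℕ) : (∑ j ∈ Finset.range M, (M - j)) * 2 = M * (M + 1) := by
  induction M with
  | zero => simp
  | succ M ih =>
    rw [Finset.sum_range_succ']
    have h : (∑ k ∈ Finset.range M, (M + 1 - (k + 1))) = ∑ k ∈ Finset.range M, (M - k) :=
      Finset.sum_congr rfl fun k _ => by omega
    rw [h, add_mul, ih]
    simp only [Nat.sub_zero]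
    ring

/-- Terms `g (M - j)` with `g 0 = 0` vanish beyond `M`. -/
private theorem cut (g : ℕ → ℕ) (hg : g 0 = 0) (B M : ℕ) (h : M ≤ B) :
    ∑ j ∈ Finset.range B, g (M - j) = ∑ j ∈ Finset.range M, g (M - j) := by
  symm
  apply Finset.sum_subset
  · intro j hj
    simp only [Finset.mem_range] at hj ⊢
    omega
  · intro j _ hj
    simp only [Finset.mem_range] at hj
    rw [Nat.sub_eq_zero_of_le (by omega), hg]

/-- The sum of the `7 (M - j) - e`. -/
private theorem sum7 (M e : ℕ) (he : e ≤ 7) :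
    (∑ j ∈ Finset.range M, (7 * (M - j) - e)) * 2 + 2 * e * M = 7 * (M * (M + 1)) := by
  have h : (∑ j ∈ Finset.range M, (7 * (M - j) - e)) + ∑ j ∈ Finset.range M, e =
      7 * ∑ j ∈ Finset.range M, (M - j) := by
    rw [Finset.mul_sum, ← Finset.sum_add_distrib]
    apply Finset.sum_congr rfl
    intro j hj
    rw [Finset.mem_range] at hj
    omega
  have h2 : (∑ j ∈ Finset.range M, e) = M * e := by simp
  rw [h2] at h
  have hg := gauss M
  nlinarith

/-- Splitting off the first coordinate. -/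
private theorem split4 (A : ℕ) (p : ℕ → ℕ → ℕ → Prop) [∀ c i j, Decidable (p c i j)] :
    ((Finset.range 4 ×ˢ Finset.range A ×ˢ Finset.range A).filter
      fun t : ℕ × ℕ × ℕ => p t.1 t.2.1 t.2.2).card =
      (((∑ j ∈ Finset.range A, ∑ i ∈ Finset.range A, if p 0 i j then 1 else 0) +
      ∑ j ∈ Finset.range A, ∑ i ∈ Finset.range A, if p 1 i j then 1 else 0) +
      ∑ j ∈ Finset.range A, ∑ i ∈ Finset.range A, if p 2 i j then 1 else 0) +
      ∑ j ∈ Finset.range A, ∑ i ∈ Finset.range A, if p 3 i j then 1 else 0 := by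
  rw [Finset.card_filter, Finset.sum_product, Finset.sum_range_succ, Finset.sum_range_succ,
    Finset.sum_range_succ, Finset.sum_range_one,
    Finset.sum_product_right, Finset.sum_product_right, Finset.sum_product_right,
    Finset.sum_product_right]

/-- Pairs with `e + i + j < M + e`. -/
private theorem pairs (A M e : ℕ) (h : M ≤ A) :
    (∑ j ∈ Finset.range A, ∑ i ∈ Finset.range A, if e + i + j < M + e then 1 else 0) * 2 =
      M * (M + 1) := by
  rw [← gauss M, ← cut (fun x => x) rfl A M h]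
  congr 1
  apply Finset.sum_congr rfl
  intro j _
  rw [← inner A (M - j) (by omega)]
  apply Finset.sum_congr rfl
  intro i _
  by_cases h : e + i + j < M + e
  · rw [if_pos h, if_pos (by omega)]
  · rw [if_neg h, if_neg (by omega)]

/-- Pairs with `e + i + 7 j < 7 M`. -/
private theorem pairs7 (A M e : ℕ) (he : e ≤ 7) (h : 7 * M ≤ A) :
    (∑ j ∈ Finset.range A, ∑ i ∈ Finset.range A, if e + i + 7 * j < 7 * M then 1 else 0) * 2 +
      2 * e * M = 7 * (M * (M + 1)) := by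
  rw [← sum7 M e he, ← cut (fun x => 7 * x - e) (by simp) A M (by omega)]
  congr 2
  apply Finset.sum_congr rfl
  intro j _
  rw [← inner A (7 * (M - j) - e) (by omega)]
  apply Finset.sum_congr rfl
  intro i _
  by_cases h : e + i + 7 * j < 7 * M
  · rw [if_pos h, if_pos (by omega)]
  · rw [if_neg h, if_neg (by omega)]

private theorem dd_odd (m : ℕ) : dd7 (2 * m + 3) = 12 * 49 ^ m + 3 * 7 ^ m := by
  unfold dd7
  rw [if_neg (by omega), if_neg (by omega), if_pos (by omega)]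
  have h : (2 * m + 3) / 2 - 1 = m := by omega
  rw [h]

private theorem dd_even (m : ℕ) : dd7 (2 * m + 4) = 84 * 49 ^ m - 3 * 7 ^ m := by
  unfold dd7
  rw [if_neg (by omega), if_neg (by omega), if_neg (by omega)]
  have h : (2 * m + 4) / 2 - 2 = m := by omega
  rw [h]

private theorem DD_succ (n : ℕ) : DD7 (n + 1) = DD7 n + dd7 (n + 1) := by
  unfold DD7
  rw [Finset.sum_range_succ (fun m => dd7 m) (n + 1)]
  ring

private theorem sq49 (m : ℕ) : (49 : ℕ) ^ m = 7 ^ m * 7 ^ m := by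
  rw [← mul_pow]
  norm_num

private theorem DD_evenOdd (m : ℕ) : DD7 (2 * m + 2) = 2 * (7 ^ m * 7 ^ m) ∧
    DD7 (2 * m + 3) = 14 * (7 ^ m * 7 ^ m) + 3 * 7 ^ m := by
  induction m with
  | zero => decide
  | succ m ih =>
    have hle : (7 : ℕ) ^ m ≤ 7 ^ m * 7 ^ m := Nat.le_mul_of_pos_left _ (by positivity)
    have h1 : DD7 (2 * (m + 1) + 2) = 2 * (7 ^ (m + 1) * 7 ^ (m + 1)) := by
      rw [show 2 * (m + 1) + 2 = (2 * m + 3) + 1 by ring, DD_succ, ih.2,
        show 2 * m + 3 + 1 = 2 * m + 4 by ring, dd_even, sq49, pow_succ]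
      have e : 7 ^ m * 7 * (7 ^ m * 7) = 49 * (7 ^ m * 7 ^ m) := by ring
      rw [e]
      omega
    refine ⟨h1, ?_⟩
    rw [show 2 * (m + 1) + 3 = (2 * (m + 1) + 2) + 1 by ring, DD_succ, h1,
      show 2 * (m + 1) + 2 + 1 = 2 * (m + 1) + 3 by ring, dd_odd, sq49]
    ring

private theorem ae_le (c : ℕ) : ae7 c ≤ 5 := by
  unfold ae7
  split_ifs <;> omega

private theorem ab_le_ae (c : ℕ) : ab7 c ≤ ae7 c := by
  unfold ab7 ae7
  split_ifs <;> omega

/-- CNT. -/
theorem hCnt : S7Cnt := by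
  constructor
  · intro k hk
    obtain ⟨m, rfl⟩ : ∃ m, k = m + 1 := ⟨k - 1, by omega⟩
    have hq : (7 : ℕ) ^ (m + 1) = 7 * 7 ^ m := by rw [pow_succ]; ring
    have hpos : 1 ≤ (7 : ℕ) ^ m := Nat.one_le_pow _ _ (by norm_num)
    have h3 : ((Finset.range 4 ×ˢ Finset.range (7 ^ (m + 1)) ×ˢ Finset.range (7 ^ (m + 1))).filter
        fun t : ℕ × ℕ × ℕ => ae7 t.1 + t.2.1 + 7 * t.2.2 < 7 ^ (m + 1) ∧
          ab7 t.1 + t.2.1 + t.2.2 < 7 ^ (m + 1 - 1)) =
        ((Finset.range 4 ×ˢ Finset.range (7 ^ (m + 1)) ×ˢ Finset.range (7 ^ (m + 1))).filter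
        fun t : ℕ × ℕ × ℕ => ab7 t.1 + t.2.1 + t.2.2 < 7 ^ m) := by
      apply Finset.filter_congr
      intro t _
      have h5 := ae_le t.1
      rw [hq, show m + 1 - 1 = m by omega]
      constructor
      · intro h
        exact h.2
      · intro h
        constructor <;> omega
    rw [h3, split4 (7 ^ (m + 1)) (fun c i j => ab7 c + i + j < 7 ^ m)]
    have a0 : ab7 0 = 0 := rfl
    have a1 : ab7 1 = 0 := rfl
    have a2 : ab7 2 = 1 := rfl
    have a3 : ab7 3 = 1 := rfl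
    rw [a0, a1, a2, a3]
    have h7 : DD7 (2 * (m + 1)) = 2 * (7 ^ m * 7 ^ m) := (DD_evenOdd m).1
    rw [h7]
    obtain ⟨w, hw⟩ : ∃ w, 7 ^ m = w + 1 := ⟨7 ^ m - 1, by omega⟩
    have h4 := pairs (7 ^ (m + 1)) (w + 1) 0 (by omega)
    have h5 := pairs (7 ^ (m + 1)) w 1 (by omega)
    rw [add_zero] at h4
    rw [hw]
    generalize (∑ j ∈ Finset.range (7 ^ (m + 1)), ∑ i ∈ Finset.range (7 ^ (m + 1)),
      if 0 + i + j < w + 1 then 1 else 0) = x at h4 ⊢
    generalize (∑ j ∈ Finset.range (7 ^ (m + 1)), ∑ i ∈ Finset.range (7 ^ (m + 1)),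
      if 1 + i + j < w + 1 then 1 else 0) = y at h5 ⊢
    nlinarith
  · intro k hk
    obtain ⟨m, rfl⟩ : ∃ m, k = m + 1 := ⟨k - 1, by omega⟩
    have hq : (7 : ℕ) ^ (m + 1) = 7 * 7 ^ m := by rw [pow_succ]; ring
    have h3 : ((Finset.range 4 ×ˢ Finset.range (7 ^ (m + 1)) ×ˢ Finset.range (7 ^ (m + 1))).filter
        fun t : ℕ × ℕ × ℕ => ae7 t.1 + t.2.1 + 7 * t.2.2 < 7 ^ (m + 1) ∧
          ab7 t.1 + t.2.1 + t.2.2 < 7 ^ (m + 1)) =
        ((Finset.range 4 ×ˢ Finset.range (7 ^ (m + 1)) ×ˢ Finset.range (7 ^ (m + 1))).filter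
        fun t : ℕ × ℕ × ℕ => ae7 t.1 + t.2.1 + 7 * t.2.2 < 7 * 7 ^ m) := by
      apply Finset.filter_congr
      intro t _
      have h5 := ab_le_ae t.1
      rw [hq]
      constructor
      · intro h
        exact h.1
      · intro h
        constructor <;> omega
    rw [h3, split4 (7 ^ (m + 1)) (fun c i j => ae7 c + i + 7 * j < 7 * 7 ^ m)]
    have a0 : ae7 0 = 0 := rfl
    have a1 : ae7 1 = 2 := rfl
    have a2 : ae7 2 = 5 := rfl
    have a3 : ae7 3 = 4 := rfl
    rw [a0, a1, a2, a3]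
    have h0 := pairs7 (7 ^ (m + 1)) (7 ^ m) 0 (by omega) (by omega)
    have h1 := pairs7 (7 ^ (m + 1)) (7 ^ m) 2 (by omega) (by omega)
    have h2 := pairs7 (7 ^ (m + 1)) (7 ^ m) 5 (by omega) (by omega)
    have h4 := pairs7 (7 ^ (m + 1)) (7 ^ m) 4 (by omega) (by omega)
    have h7 : DD7 (2 * (m + 1) + 1) = 14 * (7 ^ m * 7 ^ m) + 3 * 7 ^ m := (DD_evenOdd m).2
    rw [h7]
    generalize (∑ j ∈ Finset.range (7 ^ (m + 1)), ∑ i ∈ Finset.range (7 ^ (m + 1)),
      if 0 + i + 7 * j < 7 * 7 ^ m then 1 else 0) = x0 at h0 ⊢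
    generalize (∑ j ∈ Finset.range (7 ^ (m + 1)), ∑ i ∈ Finset.range (7 ^ (m + 1)),
      if 2 + i + 7 * j < 7 * 7 ^ m then 1 else 0) = x1 at h1 ⊢
    generalize (∑ j ∈ Finset.range (7 ^ (m + 1)), ∑ i ∈ Finset.range (7 ^ (m + 1)),
      if 5 + i + 7 * j < 7 * 7 ^ m then 1 else 0) = x2 at h2 ⊢
    generalize (∑ j ∈ Finset.range (7 ^ (m + 1)), ∑ i ∈ Finset.range (7 ^ (m + 1)),
      if 4 + i + 7 * j < 7 * 7 ^ m then 1 else 0) = x3 at h4 ⊢
    generalize (7 : ℕ) ^ m = M at h0 h1 h2 h4 ⊢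
    nlinarith

end Pool.Agent.Helper36.S7
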