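import Pool.Agent.Helper4.S7.StD3

/-!
# Project W7: solutions of the relations with given leading form
-/

set_option autoImplicit false

namespace Pool.Agent.Helper36.S7

open Pool.Agent.Helper4.S7 Pool.Agent.Helper84.S7 Pool.Agent.Helper52.S7 Pool.Agent.Helper76.S7

section led

variable {r s : ℕ}

/-- The relations as equations between functions. -/
private theorem rel_of_eq {q q' : ℕ} (F : Fin 2 → Fn7 q q')
    (h1 : F 1 + op7 2 (-1) 1 (-3) (F 1) + op7 3 (-1) 1 (-2) (F 1) = 0)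
    (h2 : F 0 - op7 1 1 0 1 (F 0) - F 1 +
      (op7 5 (-3) 1 (-4) (F 0) - op7 5 2 1 3 (F 0) - op7 5 (-3) 1 (-4) (F 1)) +
      (op7 4 (-3) 1 (-5) (F 0) - op7 4 1 1 2 (F 0) - op7 4 (-3) 1 (-5) (F 1)) = 0) : Rel7 F :=
  ⟨fun x y => congrFun (congrFun h1 x) y, fun x y => congrFun (congrFun h2 x) y⟩

private theorem comp (hm : S7Trm) (F : Fn7 (7 ^ r) (7 ^ s)) :
    op7 2 (-1) 1 (-3) (op7 2 (-1) 1 (-3) F) = op7 3 (-1) 1 (-2) F ∧
    op7 3 (-1) 1 (-2) (op7 2 (-1) 1 (-3) F) = F ∧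
    op7 5 (-3) 1 (-4) (op7 5 (-3) 1 (-4) F) = op7 4 (-3) 1 (-5) F ∧
    op7 4 (-3) 1 (-5) (op7 5 (-3) 1 (-4) F) = F ∧
    op7 5 (-3) 1 (-4) (op7 1 1 0 1 F) = op7 5 2 1 3 F ∧
    op7 4 (-3) 1 (-5) (op7 1 1 0 1 F) = op7 4 1 1 2 F := by
  obtain ⟨m1, m2, m3⟩ := hm (ZMod 7) r s F
  refine ⟨?_, ?_, ?_, ?_, ?_, ?_⟩
  · have e1 := m1 2 (-1) 1 (-3) 2 (-1) 1 (-3) (by decide) (by decide) (by decide) (by decide)
    have e2 := m3 (-1) 3 (-1) 1 (-2) (by decide) (by decide) (by decide)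
    norm_num at e1 e2
    change tr7 2 (-1) 1 (-3) (tr7 2 (-1) 1 (-3) F) = tr7 3 (-1) 1 (-2) F
    rw [e1, e2]
  · have e1 := m1 3 (-1) 1 (-2) 2 (-1) 1 (-3) (by decide) (by decide) (by decide) (by decide)
    have e2 := m3 (-1) 1 0 0 1 (by decide) (by decide) (by decide)
    norm_num at e1 e2
    change tr7 3 (-1) 1 (-2) (tr7 2 (-1) 1 (-3) F) = F
    rw [e1, e2, m2]
  · have e1 := m1 5 (-3) 1 (-4) 5 (-3) 1 (-4) (by decide) (by decide) (by decide) (by decide)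
    norm_num at e1
    change tr7 5 (-3) 1 (-4) (tr7 5 (-3) 1 (-4) F) = tr7 4 (-3) 1 (-5) F
    rw [e1]
  · have e1 := m1 4 (-3) 1 (-5) 5 (-3) 1 (-4) (by decide) (by decide) (by decide) (by decide)
    have e2 := m3 (-1) 1 0 0 1 (by decide) (by decide) (by decide)
    norm_num at e1 e2
    change tr7 4 (-3) 1 (-5) (tr7 5 (-3) 1 (-4) F) = F
    rw [e1, e2, m2]
  · have e1 := m1 5 (-3) 1 (-4) 1 1 0 1 (by decide) (by decide) (by decide) (by decide)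
    norm_num at e1
    change tr7 5 (-3) 1 (-4) (tr7 1 1 0 1 F) = tr7 5 2 1 3 F
    rw [e1]
  · have e1 := m1 4 (-3) 1 (-5) 1 1 0 1 (by decide) (by decide) (by decide) (by decide)
    norm_num at e1
    change tr7 4 (-3) 1 (-5) (tr7 1 1 0 1 F) = tr7 4 1 1 2 F
    rw [e1]

/-- Solutions of the inhomogeneous relation give solutions of the relations. -/
private theorem rel_of_sol (hm : S7Trm) (f a b : Fn7 (7 ^ r) (7 ^ s))
    (h : f - op7 1 1 0 1 f - (a - op7 2 (-1) 1 (-3) a) = b - op7 5 (-3) 1 (-4) b) :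
    Rel7 ![f, a - op7 2 (-1) 1 (-3) a] := by
  apply rel_of_eq
  · change (a - op7 2 (-1) 1 (-3) a) + op7 2 (-1) 1 (-3) (a - op7 2 (-1) 1 (-3) a) +
      op7 3 (-1) 1 (-2) (a - op7 2 (-1) 1 (-3) a) = 0
    rw [map_sub, map_sub, (comp hm a).1, (comp hm a).2.1]
    abel
  · change f - op7 1 1 0 1 f - (a - op7 2 (-1) 1 (-3) a) +
      (op7 5 (-3) 1 (-4) f - op7 5 2 1 3 f - op7 5 (-3) 1 (-4) (a - op7 2 (-1) 1 (-3) a)) +
      (op7 4 (-3) 1 (-5) f - op7 4 1 1 2 f - op7 4 (-3) 1 (-5) (a - op7 2 (-1) 1 (-3) a)) = 0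
    rw [← (comp hm f).2.2.2.2.1, ← (comp hm f).2.2.2.2.2, ← map_sub, ← map_sub, ← map_sub,
      ← map_sub, h, map_sub, map_sub, (comp hm b).2.2.1, (comp hm b).2.2.2.1]
    abel

/-- The master lemma. -/
private theorem master (hm : S7Trm) (hl : S7Low0) (hn : S7Nfa) (h1 : S7Lw1) (hj : S7Pj)
    (hst : S7Sta) (hs : S7Sur) (d : ℤ) (hd : d < 7 ^ r + 7 ^ s) (f a : Fn7 (7 ^ r) (7 ^ s))
    (hf : f ∈ Wd7 d) (ha : a ∈ Wd7 d)
    (h0 : dX (pj 1 (f + (2 : ZMod 7) • a)) + (3 : ZMod 7) • dY (pj 5 a) ∈ Wd7 (d - 2))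
    (h3 : dX (pj 4 (f + (2 : ZMod 7) • a)) + (3 : ZMod 7) • dY (pj 2 a) ∈ Wd7 (d - 2)) :
    ∃ F : Fin 2 → Fn7 (7 ^ r) (7 ^ s), Rel7 F ∧ (∀ i, F i ∈ Wd7 d) ∧
      Ob7 F 0 - pj 0 f ∈ Wd7 (d - 1) ∧ Ob7 F 1 - pj 2 (f - (3 : ZMod 7) • a) ∈ Wd7 (d - 1) ∧
      Ob7 F 2 + pj 4 a ∈ Wd7 (d - 1) ∧ Ob7 F 3 + (3 : ZMod 7) • pj 2 a ∈ Wd7 (d - 1) := by
  obtain ⟨-, -, -, -, wmono, -, ldx, ldy, -⟩ := hl r s
  obtain ⟨nW, -, -, -, -, -, nA, -⟩ := hn r s
  obtain ⟨p0, -, p6, pw, -, pd, -, -⟩ := hj r s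
  obtain ⟨la, la'⟩ := h1 r s 2 (-1) 1 (-3) (by decide) (by decide)
  obtain ⟨la1, la2⟩ := la' 4 (by decide)
  obtain ⟨-, lb'⟩ := h1 r s 5 (-3) 1 (-4) (by decide) (by decide)
  obtain ⟨-, lb2⟩ := lb' 4 (by decide)
  have c1 : (((-1) * 2 ^ 5 : ℤ) : ZMod 7) = 3 := by decide
  have c2 : ((1 * 2 ^ 5 * om6 4 ^ 5 : ℤ) : ZMod 7) = 2 := by decide
  have c3 : (((-3) * 5 ^ 5 : ℤ) : ZMod 7) = 5 := by decide
  have c4 : ((1 * 5 ^ 5 * om6 4 ^ 5 : ℤ) : ZMod 7) = 5 := by decide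
  rw [c1, c2] at la2
  rw [c3, c4] at lb2
  have k0 : (((om6 4) ^ 0 : ℤ) : ZMod 7) = 1 := by decide
  have k2 : (((om6 4) ^ 2 : ℤ) : ZMod 7) = 4 := by decide
  have k3 : (((om6 4) ^ 3 : ℤ) : ZMod 7) = 1 := by decide
  have k4 : (((om6 4) ^ 4 : ℤ) : ZMod 7) = 2 := by decide
  have mo : ∀ {x : Fn7 (7 ^ r) (7 ^ s)} {e e' : ℤ}, x ∈ Wd7 e → e ≤ e' → x ∈ Wd7 e' :=
    fun hx h => wmono _ _ h hx
  -- the defect
  obtain ⟨E, hE⟩ : ∃ E : Fn7 (7 ^ r) (7 ^ s), E = f - op7 1 1 0 1 f - (a - op7 2 (-1) 1 (-3) a) -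
      (-a - op7 5 (-3) 1 (-4) (-a)) := ⟨_, rfl⟩
  obtain ⟨X, hX⟩ : ∃ X : Fn7 (7 ^ r) (7 ^ s), X = (2 : ZMod 7) • dX a + (3 : ZMod 7) • dY a := ⟨_, rfl⟩
  have hXW : X ∈ Wd7 (d - 1) := by
    rw [hX]
    exact Submodule.add_mem _ (Submodule.smul_mem _ _ (ldx _ _ ha)) (Submodule.smul_mem _ _ (ldy _ _ ha))
  have hE2 : E + dX f + oW 4 X ∈ Wd7 (d - 2) := by
    have s1 := nA _ _ hf
    have s2 := la2 _ _ ha
    have s3 := lb2 _ _ ha
    have e : E + dX f + oW 4 X = -((oA - 1 - dX : Module.End (ZMod 7) (Fn7 (7 ^ r) (7 ^ s))) f) +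
        (op7 2 (-1) 1 (-3) - oW 4 * (1 + (3 : ZMod 7) • dX + (2 : ZMod 7) • dY) :
          Module.End (ZMod 7) (Fn7 (7 ^ r) (7 ^ s))) a -
        (op7 5 (-3) 1 (-4) - oW 4 * (1 + (5 : ZMod 7) • dX + (5 : ZMod 7) • dY) :
          Module.End (ZMod 7) (Fn7 (7 ^ r) (7 ^ s))) a := by
      rw [hE, hX]
      simp only [LinearMap.sub_apply, Module.End.mul_apply, LinearMap.add_apply, LinearMap.smul_apply,
        Module.End.one_apply, map_add, map_smul, map_neg, oA]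
      module
    rw [e]
    exact Submodule.sub_mem _ (Submodule.add_mem _ (Submodule.neg_mem _ (mo s1 (by linarith))) s2) s3
  have hE1 : E ∈ Wd7 (d - 1) := by
    have e : E = (E + dX f + oW 4 X) - dX f - oW 4 X := by abel
    rw [e]
    refine Submodule.sub_mem _ (Submodule.sub_mem _ (mo hE2 (by linarith)) (ldx _ _ hf)) ?_
    have := nW 4 _ _ hXW
    exact mo this (by linarith)
  have hpc : ∀ c : ℕ, (((om6 4) ^ c : ℤ) : ZMod 7) = 1 →
      dX (pj (c + 1) (f + (2 : ZMod 7) • a)) + (3 : ZMod 7) • dY (pj (c + 5) a) ∈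
        (Wd7 (d - 2) : Submodule (ZMod 7) (Fn7 (7 ^ r) (7 ^ s))) →
      pj c E ∈ Wd7 (d - 1 - 1) := by
    intro c hc hx
    have t1 := p0 c _ _ hE2
    have t2 := (pw c 4).1 _ _ hXW
    have t3 := (pd c).1 _ _ hf
    have t4 := (pd c).1 _ _ ha
    have t5 := (pd c).2 _ _ ha
    rw [hc] at t2
    have e : pj c E = pj c (E + dX f + oW 4 X) -
        (pj c * oW 4 - (1 : ZMod 7) • pj c : Module.End (ZMod 7) (Fn7 (7 ^ r) (7 ^ s))) X -
        (pj c * dX - dX * pj (c + 1) : Module.End (ZMod 7) (Fn7 (7 ^ r) (7 ^ s))) f -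
        (2 : ZMod 7) • (pj c * dX - dX * pj (c + 1) : Module.End (ZMod 7) (Fn7 (7 ^ r) (7 ^ s))) a -
        (3 : ZMod 7) • (pj c * dY - dY * pj (c + 5) : Module.End (ZMod 7) (Fn7 (7 ^ r) (7 ^ s))) a -
        (dX (pj (c + 1) (f + (2 : ZMod 7) • a)) + (3 : ZMod 7) • dY (pj (c + 5) a)) := by
      rw [hX]
      simp only [LinearMap.sub_apply, Module.End.mul_apply, LinearMap.smul_apply, map_add, map_smul]
      module
    rw [e]
    have ed : d - 1 - 1 = d - 2 := by ring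
    rw [ed]
    refine Submodule.sub_mem _ (Submodule.sub_mem _ (Submodule.sub_mem _ (Submodule.sub_mem _
      (Submodule.sub_mem _ (mo t1 (by linarith)) (mo t2 (by linarith))) t3)
      (Submodule.smul_mem _ _ t4)) (Submodule.smul_mem _ _ t5)) hx
  have hp0 : pj 0 E ∈ Wd7 (d - 1 - 1) := hpc 0 k0 h0
  have hp3 : pj 3 E ∈ Wd7 (d - 1 - 1) := by
    apply hpc 3 k3
    have e8 : (pj (3 + 5) : Module.End (ZMod 7) (Fn7 (7 ^ r) (7 ^ s))) = pj 2 := p6 2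
    rw [e8]
    exact h3
  obtain ⟨a', ha', hE'⟩ := hst r s (d - 1) E hE1 hp0 hp3
  obtain ⟨E', hEE'⟩ : ∃ E' : Fn7 (7 ^ r) (7 ^ s), E' = E + (a' - op7 2 (-1) 1 (-3) a') := ⟨_, rfl⟩
  rw [← hEE'] at hE'
  obtain ⟨f2, a2, b2, hf2, ha2, -, hEq⟩ := hs r s (d - 1 - 1) E' (by linarith) hE'
  have ed : d - 1 - 1 + 1 = d - 1 := by ring
  rw [ed] at hf2 ha2
  obtain ⟨A, hA⟩ : ∃ A : Fn7 (7 ^ r) (7 ^ s), A = a - a' - a2 := ⟨_, rfl⟩
  have hAW : A ∈ Wd7 d := by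
    rw [hA]
    exact Submodule.sub_mem _ (Submodule.sub_mem _ ha (mo ha' (by linarith))) (mo ha2 (by linarith))
  have hk : (f - f2) - op7 1 1 0 1 (f - f2) - (A - op7 2 (-1) 1 (-3) A) =
      (-a - b2) - op7 5 (-3) 1 (-4) (-a - b2) := by
    have h : (f - f2) - op7 1 1 0 1 (f - f2) - (A - op7 2 (-1) 1 (-3) A) =
      (-a - b2) - op7 5 (-3) 1 (-4) (-a - b2) + (E' - (f2 - op7 1 1 0 1 f2 -
        (a2 - op7 2 (-1) 1 (-3) a2) - (b2 - op7 5 (-3) 1 (-4) b2))) := by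
      rw [hEE', hE, hA]
      simp only [map_sub]
      abel
    rw [h, hEq, sub_self, add_zero]
  obtain ⟨F1, hF1⟩ : ∃ F1 : Fn7 (7 ^ r) (7 ^ s), F1 = A - op7 2 (-1) 1 (-3) A := ⟨_, rfl⟩
  have hrel := rel_of_sol hm _ _ _ hk
  rw [← hF1] at hrel
  have hF1W : F1 ∈ Wd7 d := by
    rw [hF1]
    exact Submodule.sub_mem _ hAW (mo (la _ _ hAW) (by linarith))
  -- the classes of `F1`
  have hcl : ∀ (c : ℕ) (k : ZMod 7), (((om6 4) ^ c : ℤ) : ZMod 7) = k →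
      pj c F1 - (1 - k) • pj c a ∈ Wd7 (d - 1) := by
    intro c k hk
    have u1 := p0 c _ _ (Submodule.add_mem _ ha' ha2)
    have u2 := p0 c _ _ (mo (la _ _ (Submodule.add_mem _ ha' ha2)) (le_refl _))
    have u3 := p0 c _ _ (la1 _ _ ha)
    have u4 := (pw c 4).1 _ _ ha
    rw [hk] at u4
    have e : pj c F1 - (1 - k) • pj c a = -pj c (a' + a2) + pj c (op7 2 (-1) 1 (-3) (a' + a2)) -
        pj c ((op7 2 (-1) 1 (-3) - oW 4 : Module.End (ZMod 7) (Fn7 (7 ^ r) (7 ^ s))) a) -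
        (pj c * oW 4 - k • pj c : Module.End (ZMod 7) (Fn7 (7 ^ r) (7 ^ s))) a := by
      rw [hF1, hA]
      simp only [LinearMap.sub_apply, Module.End.mul_apply, LinearMap.smul_apply, map_add, map_sub]
      module
    rw [e]
    exact Submodule.sub_mem _ (Submodule.sub_mem _ (Submodule.add_mem _ (Submodule.neg_mem _
      (mo u1 (by linarith))) (mo u2 (by linarith))) (mo u3 (by linarith))) (mo u4 (by linarith))
  refine ⟨![f - f2, F1], hrel, ?_, ?_, ?_, ?_, ?_⟩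
  · intro i
    fin_cases i
    · exact Submodule.sub_mem _ hf (mo hf2 (by linarith))
    · exact hF1W
  · change pj 0 (f - f2) - pj 0 f ∈ Wd7 (d - 1)
    have e : pj 0 (f - f2) - pj 0 f = -pj 0 f2 := by rw [map_sub]; abel
    rw [e]
    exact Submodule.neg_mem _ (mo (p0 0 _ _ hf2) (by linarith))
  · change pj 2 ((f - f2) + F1) - pj 2 (f - (3 : ZMod 7) • a) ∈ Wd7 (d - 1)
    have e : pj 2 ((f - f2) + F1) - pj 2 (f - (3 : ZMod 7) • a) =
        (pj 2 F1 - ((1 : ZMod 7) - 4) • pj 2 a) - pj 2 f2 := by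
      simp only [map_add, map_sub, map_smul]
      module
    rw [e]
    exact Submodule.sub_mem _ (hcl 2 4 k2) (mo (p0 2 _ _ hf2) (by linarith))
  · change pj 4 F1 + pj 4 a ∈ Wd7 (d - 1)
    have e : pj 4 F1 + pj 4 a = pj 4 F1 - ((1 : ZMod 7) - 2) • pj 4 a := by module
    rw [e]
    exact hcl 4 2 k4
  · change pj 2 F1 + (3 : ZMod 7) • pj 2 a ∈ Wd7 (d - 1)
    have e : pj 2 F1 + (3 : ZMod 7) • pj 2 a = pj 2 F1 - ((1 : ZMod 7) - 4) • pj 2 a := by module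
    rw [e]
    exact hcl 2 4 k2

/-- Assembly of the observables. -/
private theorem asm (d : ℤ) (c : ℕ) (f a B : Fn7 (7 ^ r) (7 ^ s))
    (h : ∃ F : Fin 2 → Fn7 (7 ^ r) (7 ^ s), Rel7 F ∧ (∀ i, F i ∈ Wd7 d) ∧
      Ob7 F 0 - pj 0 f ∈ Wd7 (d - 1) ∧ Ob7 F 1 - pj 2 (f - (3 : ZMod 7) • a) ∈ Wd7 (d - 1) ∧
      Ob7 F 2 + pj 4 a ∈ Wd7 (d - 1) ∧ Ob7 F 3 + (3 : ZMod 7) • pj 2 a ∈ Wd7 (d - 1))
    (g0 : pj 0 f - (if 0 = c then B else 0) ∈ (Wd7 (d - 1) : Submodule (ZMod 7) (Fn7 (7 ^ r) (7 ^ s))))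
    (g1 : pj 2 (f - (3 : ZMod 7) • a) - (if 1 = c then B else 0) ∈
      (Wd7 (d - 1) : Submodule (ZMod 7) (Fn7 (7 ^ r) (7 ^ s))))
    (g2 : -pj 4 a - (if 2 = c then B else 0) ∈ (Wd7 (d - 1) : Submodule (ZMod 7) (Fn7 (7 ^ r) (7 ^ s))))
    (g3 : -((3 : ZMod 7) • pj 2 a) - (if 3 = c then B else 0) ∈
      (Wd7 (d - 1) : Submodule (ZMod 7) (Fn7 (7 ^ r) (7 ^ s)))) :
    ∃ F : Fin 2 → Fn7 (7 ^ r) (7 ^ s), Rel7 F ∧ (∀ i, F i ∈ Wd7 d) ∧
      ∀ o : Fin 4, Ob7 F o - (if o.val = c then B else 0) ∈ Wd7 (d - 1) := by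
  obtain ⟨F, hR, hW, o0, o1, o2, o3⟩ := h
  refine ⟨F, hR, hW, fun o => ?_⟩
  fin_cases o
  · have e : Ob7 F 0 - (if 0 = c then B else 0) = (Ob7 F 0 - pj 0 f) +
        (pj 0 f - (if 0 = c then B else 0)) := by abel
    change Ob7 F 0 - (if 0 = c then B else 0) ∈ Wd7 (d - 1)
    rw [e]
    exact Submodule.add_mem _ o0 g0
  · have e : Ob7 F 1 - (if 1 = c then B else 0) = (Ob7 F 1 - pj 2 (f - (3 : ZMod 7) • a)) +
        (pj 2 (f - (3 : ZMod 7) • a) - (if 1 = c then B else 0)) := by abel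
    change Ob7 F 1 - (if 1 = c then B else 0) ∈ Wd7 (d - 1)
    rw [e]
    exact Submodule.add_mem _ o1 g1
  · have e : Ob7 F 2 - (if 2 = c then B else 0) = (Ob7 F 2 + pj 4 a) +
        (-pj 4 a - (if 2 = c then B else 0)) := by abel
    change Ob7 F 2 - (if 2 = c then B else 0) ∈ Wd7 (d - 1)
    rw [e]
    exact Submodule.add_mem _ o2 g2
  · have e : Ob7 F 3 - (if 3 = c then B else 0) = (Ob7 F 3 + (3 : ZMod 7) • pj 2 a) +
        (-((3 : ZMod 7) • pj 2 a) - (if 3 = c then B else 0)) := by abel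
    change Ob7 F 3 - (if 3 = c then B else 0) ∈ Wd7 (d - 1)
    rw [e]
    exact Submodule.add_mem _ o3 g3

end led

theorem hLed (hm : S7Trm) (hl : S7Low0) (hn : S7Nfa) (h1 : S7Lw1) (hj : S7Pj) (hb : S7Bb)
    (ha : S7Sta) (hs : S7Sur) : S7Led := by
  intro r s c i j hc hi1 hi2
  obtain ⟨-, -, -, -, wmono, -, ldx, ldy, -⟩ := hl r s
  obtain ⟨b1, b2, b3, -⟩ := hb r s
  obtain ⟨-, -, -, -, -, -, -, pc⟩ := hj r s
  have hr : ((7 ^ r : ℕ) : ℤ) = 7 ^ r := by push_cast; rfl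
  have hs' : ((7 ^ s : ℕ) : ℤ) = 7 ^ s := by push_cast; rfl
  have cne : ∀ (c' al be : ℕ) (e : ℤ), al < 7 ^ r → be < 7 ^ s → (al : ℤ) + be - 1 ≤ e →
      ((al : ℤ) - be - c') % 6 ≠ 0 →
      pj c' (bb7 al be : Fn7 (7 ^ r) (7 ^ s)) ∈ Wd7 e := by
    intro c' al be e hal hbe he hne
    have h := pc c' al be hal hbe
    rw [if_neg hne, sub_zero] at h
    exact wmono _ _ he h
  have ceq : ∀ (c' al be : ℕ) (e : ℤ), al < 7 ^ r → be < 7 ^ s → (al : ℤ) + be - 1 ≤ e →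
      ((al : ℤ) - be - c') % 6 = 0 →
      pj c' (bb7 al be : Fn7 (7 ^ r) (7 ^ s)) - bb7 al be ∈ Wd7 e := by
    intro c' al be e hal hbe he hne
    have h := pc c' al be hal hbe
    rw [if_pos hne] at h
    exact wmono _ _ he h
  have hd2 : ∀ (d : ℤ) (x : Fn7 (7 ^ r) (7 ^ s)), x ∈ Wd7 (d - 1) → dX x ∈ Wd7 (d - 2) ∧ dY x ∈ Wd7 (d - 2) := by
    intro d x hx
    have e : d - 2 = d - 1 - 1 := by ring
    rw [e]
    exact ⟨ldx _ _ hx, ldy _ _ hx⟩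
  interval_cases c
  · -- class 0
    have q1 : ae7 0 = 0 := rfl
    have q2 : ab7 0 = 0 := rfl
    have q3 : aa7 0 = 0 := rfl
    rw [q1] at hi1
    rw [q2] at hi2
    rw [q2, q3]
    have hdd : ((dg7 0 i j : ℕ) : ℤ) = 2 * i + 8 * j := by
      unfold dg7
      rw [q2, q3]
      push_cast
      ring
    rw [hdd]
    obtain ⟨P, hP⟩ : ∃ P : Fn7 (7 ^ r) (7 ^ s), P = bb7 (0 + i + 7 * j) (0 + i + j) := ⟨_, rfl⟩
    have hPW : P ∈ Wd7 (2 * i + 8 * j : ℤ) := by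
      rw [hP]
      refine wmono _ _ ?_ (b1 _ _ hi1 hi2)
      push_cast
      linarith
    have n1 : ∀ c' : ℕ, ((c' : ℤ)) % 6 ≠ 0 → pj c' P ∈ Wd7 (2 * i + 8 * j - 1 : ℤ) := by
      intro c' hc'
      rw [hP]
      refine cne _ _ _ _ hi1 hi2 ?_ ?_
      · push_cast
        linarith
      · push_cast
        omega
    have n0 : pj 0 P - P ∈ Wd7 (2 * i + 8 * j - 1 : ℤ) := by
      rw [hP]
      refine ceq _ _ _ _ hi1 hi2 ?_ ?_
      · push_cast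
        linarith
      · push_cast
        omega
    rw [← hP]
    apply asm _ _ P 0 P
    · apply master hm hl hn h1 hj ha hs _ ?_ P 0 hPW (Submodule.zero_mem _)
      · have e : dX (pj 1 (P + (2 : ZMod 7) • (0 : Fn7 (7 ^ r) (7 ^ s)))) + (3 : ZMod 7) •
            dY (pj 5 (0 : Fn7 (7 ^ r) (7 ^ s))) = dX (pj 1 P) := by simp
        rw [e]
        exact (hd2 _ _ (n1 1 (by norm_num))).1
      · have e : dX (pj 4 (P + (2 : ZMod 7) • (0 : Fn7 (7 ^ r) (7 ^ s)))) + (3 : ZMod 7) •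
            dY (pj 2 (0 : Fn7 (7 ^ r) (7 ^ s))) = dX (pj 4 P) := by simp
        rw [e]
        exact (hd2 _ _ (n1 4 (by norm_num))).1
      · have h5 : ((0 + i + 7 * j : ℕ) : ℤ) < ((7 ^ r : ℕ) : ℤ) := by exact_mod_cast hi1
        have h6 : ((0 + i + j : ℕ) : ℤ) < ((7 ^ s : ℕ) : ℤ) := by exact_mod_cast hi2
        rw [hr] at h5
        rw [hs'] at h6
        push_cast at h5 h6
        linarith
    · rw [if_pos rfl]
      exact n0
    · rw [if_neg (by norm_num), sub_zero, smul_zero, sub_zero]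
      exact n1 2 (by norm_num)
    · simp
    · simp
  · -- class 2
    have q1 : ae7 1 = 2 := rfl
    have q2 : ab7 1 = 0 := rfl
    have q3 : aa7 1 = 2 := rfl
    rw [q1] at hi1
    rw [q2] at hi2
    rw [q2, q3]
    have hdd : ((dg7 1 i j : ℕ) : ℤ) = 2 + 2 * i + 8 * j := by
      unfold dg7
      rw [q2, q3]
      push_cast
      ring
    rw [hdd]
    obtain ⟨P, hP⟩ : ∃ P : Fn7 (7 ^ r) (7 ^ s), P = bb7 (2 + i + 7 * j) (0 + i + j) := ⟨_, rfl⟩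
    have hPW : P ∈ Wd7 (2 + 2 * i + 8 * j : ℤ) := by
      rw [hP]
      refine wmono _ _ ?_ (b1 _ _ hi1 hi2)
      push_cast
      linarith
    have n1 : ∀ c' : ℕ, (2 - (c' : ℤ)) % 6 ≠ 0 → pj c' P ∈ Wd7 (2 + 2 * i + 8 * j - 1 : ℤ) := by
      intro c' hc'
      rw [hP]
      refine cne _ _ _ _ hi1 hi2 ?_ ?_
      · push_cast
        linarith
      · push_cast
        omega
    have n0 : pj 2 P - P ∈ Wd7 (2 + 2 * i + 8 * j - 1 : ℤ) := by
      rw [hP]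
      refine ceq _ _ _ _ hi1 hi2 ?_ ?_
      · push_cast
        linarith
      · push_cast
        omega
    rw [← hP]
    apply asm _ _ P 0 P
    · apply master hm hl hn h1 hj ha hs _ ?_ P 0 hPW (Submodule.zero_mem _)
      · have e : dX (pj 1 (P + (2 : ZMod 7) • (0 : Fn7 (7 ^ r) (7 ^ s)))) + (3 : ZMod 7) •
            dY (pj 5 (0 : Fn7 (7 ^ r) (7 ^ s))) = dX (pj 1 P) := by simp
        rw [e]
        exact (hd2 _ _ (n1 1 (by norm_num))).1
      · have e : dX (pj 4 (P + (2 : ZMod 7) • (0 : Fn7 (7 ^ r) (7 ^ s)))) + (3 : ZMod 7) •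
            dY (pj 2 (0 : Fn7 (7 ^ r) (7 ^ s))) = dX (pj 4 P) := by simp
        rw [e]
        exact (hd2 _ _ (n1 4 (by norm_num))).1
      · have h5 : ((2 + i + 7 * j : ℕ) : ℤ) < ((7 ^ r : ℕ) : ℤ) := by exact_mod_cast hi1
        have h6 : ((0 + i + j : ℕ) : ℤ) < ((7 ^ s : ℕ) : ℤ) := by exact_mod_cast hi2
        rw [hr] at h5
        rw [hs'] at h6
        push_cast at h5 h6
        linarith
    · rw [if_neg (by norm_num), sub_zero]
      exact n1 0 (by norm_num)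
    · rw [if_pos rfl, smul_zero, sub_zero]
      exact n0
    · simp
    · simp
  · -- class 4
    have q1 : ae7 2 = 5 := rfl
    have q2 : ab7 2 = 1 := rfl
    have q3 : aa7 2 = 5 := rfl
    rw [q1] at hi1
    rw [q2] at hi2
    rw [q2, q3]
    have hdd : ((dg7 2 i j : ℕ) : ℤ) = 6 + 2 * i + 8 * j := by
      unfold dg7
      rw [q2, q3]
      push_cast
      ring
    rw [hdd]
    obtain ⟨P, hP⟩ : ∃ P : Fn7 (7 ^ r) (7 ^ s), P = bb7 (5 + i + 7 * j) (1 + i + j) := ⟨_, rfl⟩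
    have hPW : P ∈ Wd7 (6 + 2 * i + 8 * j : ℤ) := by
      rw [hP]
      refine wmono _ _ ?_ (b1 _ _ hi1 hi2)
      push_cast
      linarith
    have n1 : ∀ c' : ℕ, (4 - (c' : ℤ)) % 6 ≠ 0 → pj c' P ∈ Wd7 (6 + 2 * i + 8 * j - 1 : ℤ) := by
      intro c' hc'
      rw [hP]
      refine cne _ _ _ _ hi1 hi2 ?_ ?_
      · push_cast
        linarith
      · push_cast
        omega
    have n0 : pj 4 P - P ∈ Wd7 (6 + 2 * i + 8 * j - 1 : ℤ) := by
      rw [hP]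
      refine ceq _ _ _ _ hi1 hi2 ?_ ?_
      · push_cast
        linarith
      · push_cast
        omega
    rw [← hP]
    have e0 : (2 : ZMod 7) • P + (2 : ZMod 7) • (-P) = 0 := by module
    apply asm _ _ ((2 : ZMod 7) • P) (-P) P
    · apply master hm hl hn h1 hj ha hs _ ?_ _ _ (Submodule.smul_mem _ _ hPW) (Submodule.neg_mem _ hPW)
      · rw [e0, map_zero, map_zero, zero_add, map_neg, map_neg]
        exact Submodule.smul_mem _ _ (Submodule.neg_mem _ (hd2 _ _ (n1 5 (by norm_num))).2)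
      · rw [e0, map_zero, map_zero, zero_add, map_neg, map_neg]
        exact Submodule.smul_mem _ _ (Submodule.neg_mem _ (hd2 _ _ (n1 2 (by norm_num))).2)
      · have h5 : ((5 + i + 7 * j : ℕ) : ℤ) < ((7 ^ r : ℕ) : ℤ) := by exact_mod_cast hi1
        have h6 : ((1 + i + j : ℕ) : ℤ) < ((7 ^ s : ℕ) : ℤ) := by exact_mod_cast hi2
        rw [hr] at h5
        rw [hs'] at h6
        push_cast at h5 h6
        linarith
    · rw [if_neg (by norm_num), sub_zero, map_smul]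
      exact Submodule.smul_mem _ _ (n1 0 (by norm_num))
    · have e : pj 2 ((2 : ZMod 7) • P - (3 : ZMod 7) • (-P)) = (5 : ZMod 7) • pj 2 P := by
        simp only [map_sub, map_smul, map_neg]
        module
      rw [if_neg (by norm_num), sub_zero, e]
      exact Submodule.smul_mem _ _ (n1 2 (by norm_num))
    · rw [if_pos rfl, map_neg, neg_neg]
      exact n0
    · rw [if_neg (by norm_num), sub_zero, map_neg, smul_neg, neg_neg]
      exact Submodule.smul_mem _ _ (n1 2 (by norm_num))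
  · -- classes 2 and 4
    have q1 : ae7 3 = 4 := rfl
    have q2 : ab7 3 = 1 := rfl
    have q3 : aa7 3 = 3 := rfl
    rw [q1] at hi1
    rw [q2] at hi2
    rw [q2, q3]
    have hdd : ((dg7 3 i j : ℕ) : ℤ) = 4 + 2 * i + 8 * j := by
      unfold dg7
      rw [q2, q3]
      push_cast
      ring
    rw [hdd]
    have hi3 : 3 + i + 7 * j + 1 < 7 ^ r := by omega
    have hi4 : i + j + 1 < 7 ^ s := by omega
    have e1 : 1 + i + j = i + j + 1 := by ring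
    rw [e1]
    obtain ⟨Q, hQ⟩ : ∃ Q : Fn7 (7 ^ r) (7 ^ s), Q = bb7 (3 + i + 7 * j) (i + j + 1) := ⟨_, rfl⟩
    obtain ⟨R, hR⟩ : ∃ R : Fn7 (7 ^ r) (7 ^ s), R = bb7 (3 + i + 7 * j + 1) (i + j) := ⟨_, rfl⟩
    have hQW : Q ∈ Wd7 (4 + 2 * i + 8 * j : ℤ) := by
      rw [hQ]
      refine wmono _ _ ?_ (b1 _ _ (by omega) hi4)
      push_cast
      linarith
    have hRW : R ∈ Wd7 (4 + 2 * i + 8 * j : ℤ) := by
      rw [hR]
      refine wmono _ _ ?_ (b1 _ _ hi3 (by omega))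
      push_cast
      linarith
    have nQ : ∀ c' : ℕ, (2 - (c' : ℤ)) % 6 ≠ 0 → pj c' Q ∈ Wd7 (4 + 2 * i + 8 * j - 1 : ℤ) := by
      intro c' hc'
      rw [hQ]
      refine cne _ _ _ _ (by omega) hi4 ?_ ?_
      · push_cast
        linarith
      · push_cast
        omega
    have nR : ∀ c' : ℕ, (4 - (c' : ℤ)) % 6 ≠ 0 → pj c' R ∈ Wd7 (4 + 2 * i + 8 * j - 1 : ℤ) := by
      intro c' hc'
      rw [hR]
      refine cne _ _ _ _ hi3 (by omega) ?_ ?_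
      · push_cast
        linarith
      · push_cast
        omega
    have nQ0 : pj 2 Q - Q ∈ Wd7 (4 + 2 * i + 8 * j - 1 : ℤ) := by
      rw [hQ]
      refine ceq _ _ _ _ (by omega) hi4 ?_ ?_
      · push_cast
        linarith
      · push_cast
        omega
    have nR0 : pj 4 R - R ∈ Wd7 (4 + 2 * i + 8 * j - 1 : ℤ) := by
      rw [hR]
      refine ceq _ _ _ _ hi3 (by omega) ?_ ?_
      · push_cast
        linarith
      · push_cast
        omega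
    have dR : dX R = dY Q := by
      rw [hR, hQ, b2 _ _ hi3 (by omega), b3 _ _ (by omega) hi4]
    rw [← hQ]
    have h7 : (7 : ZMod 7) = 0 := by decide
    have e0 : R - Q + (2 : ZMod 7) • ((2 : ZMod 7) • Q) = R + (3 : ZMod 7) • Q := by module
    apply asm _ _ (R - Q) ((2 : ZMod 7) • Q) Q
    · apply master hm hl hn h1 hj ha hs _ ?_ _ _ (Submodule.sub_mem _ hRW hQW)
        (Submodule.smul_mem _ _ hQW)
      · rw [e0]
        have e : dX (pj 1 (R + (3 : ZMod 7) • Q)) + (3 : ZMod 7) • dY (pj 5 ((2 : ZMod 7) • Q)) =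
            dX (pj 1 R) + (3 : ZMod 7) • dX (pj 1 Q) + (6 : ZMod 7) • dY (pj 5 Q) := by
          simp only [map_add, map_smul]
          module
        rw [e]
        exact Submodule.add_mem _ (Submodule.add_mem _ (hd2 _ _ (nR 1 (by norm_num))).1
          (Submodule.smul_mem _ _ (hd2 _ _ (nQ 1 (by norm_num))).1))
          (Submodule.smul_mem _ _ (hd2 _ _ (nQ 5 (by norm_num))).2)
      · rw [e0]
        have e : dX (pj 4 (R + (3 : ZMod 7) • Q)) + (3 : ZMod 7) • dY (pj 2 ((2 : ZMod 7) • Q)) =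
            dX (pj 4 R - R) + (3 : ZMod 7) • dX (pj 4 Q) + (6 : ZMod 7) • dY (pj 2 Q - Q) +
              (7 : ZMod 7) • dY Q := by
          simp only [map_add, map_smul, map_sub, dR]
          module
        rw [e, h7, zero_smul, add_zero]
        exact Submodule.add_mem _ (Submodule.add_mem _ (hd2 _ _ nR0).1
          (Submodule.smul_mem _ _ (hd2 _ _ (nQ 4 (by norm_num))).1))
          (Submodule.smul_mem _ _ (hd2 _ _ nQ0).2)
      · have h5 : ((3 + i + 7 * j + 1 : ℕ) : ℤ) < ((7 ^ r : ℕ) : ℤ) := by exact_mod_cast hi3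
        have h6 : ((i + j + 1 : ℕ) : ℤ) < ((7 ^ s : ℕ) : ℤ) := by exact_mod_cast hi4
        rw [hr] at h5
        rw [hs'] at h6
        push_cast at h5 h6
        linarith
    · rw [if_neg (by norm_num), sub_zero, map_sub]
      exact Submodule.sub_mem _ (nR 0 (by norm_num)) (nQ 0 (by norm_num))
    · have e : pj 2 (R - Q - (3 : ZMod 7) • ((2 : ZMod 7) • Q)) = pj 2 R - (7 : ZMod 7) • pj 2 Q := by
        simp only [map_sub, map_smul]
        module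
      rw [if_neg (by norm_num), sub_zero, e, h7, zero_smul, sub_zero]
      exact nR 2 (by norm_num)
    · rw [if_neg (by norm_num), sub_zero, map_smul]
      exact Submodule.neg_mem _ (Submodule.smul_mem _ _ (nQ 4 (by norm_num)))
    · have e : -((3 : ZMod 7) • pj 2 ((2 : ZMod 7) • Q)) - Q = (pj 2 Q - Q) - (7 : ZMod 7) • pj 2 Q := by
        simp only [map_smul]
        module
      rw [if_pos rfl, e, h7, zero_smul, sub_zero]
      exact nQ0

end Pool.Agent.Helper36.S7
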